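import Mathlib
import Pool.Agent.R271.QSMain

set_option autoImplicit false

/-!
MP_d136d9_an, Q1: the answer is positive. For every uniformly separated metric space `M` the
Lipschitz-free space `F(M)`, real or complex, is quantitatively weakly sequentially complete, with a
constant which does not depend on `M`; it even has the quantitative Schur property.

Idea of the proof. Call a bounded sequence `(x_n)` with `‖x_n - x_m‖ ≥ s` separated. The main step
(`gen`) produces a subsequence with `‖∑ a_j x_j‖ ≥ (s / 1600) ∑ |a_j|` whenever `∑ a_j = 0`. By
density the `x_n` may be taken finitely supported. If the parts of `x_n` far away from the base point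
do not become small, one uses norming functions supported on disjoint annuli and a triangular form
of Rosenthal's lemma. Otherwise one may cut off, so that all `x_n` live on one ball. There one
chooses the `x_j` and norming functions `g_j` one after the other, such that `g_j` vanishes on the
supports of the earlier terms; the signed functions `θ_j g_j` can be glued together up to a set of
points of small total mass, since the number of the earlier functions `g_i` which are large near a
given point is bounded, and the total variation is bounded by the norm because `M` is uniformly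
separated.
-/

open scoped ENNReal
open Pool.Agent.R271.QS

namespace Pool.Agent.Results.MP_d136d9_an.QuantitativeWsc

/-- `X` is `c`-weakly sequentially complete. -/
def IsCWsc (𝕜 X : Type*) [RCLike 𝕜] [NormedAddCommGroup X] [NormedSpace 𝕜 X] (c : ℝ≥0∞) : Prop :=
  ∀ x : ℕ → X, Bornology.IsBounded (Set.range x) → wck 𝕜 x ≤ c * delta 𝕜 x

/-- `X` has the `c`-Schur property. -/
def IsCSchur (𝕜 X : Type*) [RCLike 𝕜] [NormedAddCommGroup X] [NormedSpace 𝕜 X] (c : ℝ≥0∞) : Prop :=
  ∀ x : ℕ → X, Bornology.IsBounded (Set.range x) → ca x ≤ c * delta 𝕜 x

/-- **MP_d136d9_an, Q1.** For every uniformly separated metric space `M` and every base point `o`,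
the real or complex Lipschitz-free space over `M` is `4000`-weakly sequentially complete, and it has
the `4000`-Schur property. -/
theorem result (𝕜 : Type*) [RCLike 𝕜] (M : Type*) [MetricSpace M] (o : M)
    (hM : ∃ ε > 0, ∀ x y : M, x ≠ y → ε ≤ dist x y) :
    IsCWsc 𝕜 (FreeSp 𝕜 M o) 4000 ∧ IsCSchur 𝕜 (FreeSp 𝕜 M o) 4000 := by
  have h : ∀ x : ℕ → FreeSp 𝕜 M o, Bornology.IsBounded (Set.range x) →
      ca x ≤ 4000 * delta 𝕜 x := by
    intro x hx
    have h1 := ca_le (𝕜 := 𝕜) (by norm_num) (by norm_num) (sdl_free o hM) hx
    have h2 : ENNReal.ofReal (5 / (2 * (1 / 1600))) = 4000 := by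
      norm_num
    rwa [h2] at h1
  exact ⟨fun x hx => (wck_le_ca hx).trans (h x hx), h⟩

end Pool.Agent.Results.MP_d136d9_an.QuantitativeWsc
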